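import Pool.Agent.Work.MP_89ab3c_nt.Main

/-!
# Transference of intersectivity to the primes at the logarithmic threshold, for all dilates
-/

set_option autoImplicit false

namespace Pool.Agent.Work.MP_89ab3c_nt.Parked.NarrowTransfer

open Finset

theorem result (s : ℕ) (hs : 1 ≤ s) (C B ε α : ℝ) (hε : 0 < ε) (hα : 0 < α) :
    ∃ δ : ℝ, 0 < δ ∧ ∀ c : ℝ, 0 < c → ∃ w N₀ : ℕ, ∀ N : ℕ, N₀ ≤ N →
      ∀ (M W : ℕ) (T A : Finset ℕ), 1 ≤ W → (∀ p : ℕ, p.Prime → p ≤ w → p ∣ W) → W * M ≤ N →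
      (M : ℝ) ≤ Real.log N ^ B → T ⊆ Icc 1 M → Real.log N ^ (1 + ε) ≤ T.card →
      (∀ n : ℕ, (((Fintype.piFinset fun _ : Fin s => T).filter fun x => ∑ i, x i = n).card : ℝ) * M
        ≤ C * (T.card : ℝ) ^ s) →
      (∀ E : Finset ℕ, E ⊆ range M → δ * M ≤ E.card →
        c * M * T.card ≤ (((E ×ˢ T).filter fun e => e.1 + e.2 ∈ E).card : ℝ)) →
      (∀ p ∈ A, p.Prime ∧ p ≤ N) → α * N / Real.log N ≤ A.card →
      ∃ a ∈ A, ∃ a' ∈ A, ∃ t ∈ T, a = a' + W * t := by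
  obtain ⟨δ, hδ, H⟩ := Pool.Agent.Work.MP_89ab3c_nt.narrow s hs C B hε hα
  refine ⟨δ, hδ, fun c hc => ?_⟩
  obtain ⟨w, H⟩ := H c hc
  obtain ⟨N₀, H⟩ := Filter.eventually_atTop.1 H
  exact ⟨w, N₀, H⟩

end Pool.Agent.Work.MP_89ab3c_nt.Parked.NarrowTransfer
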